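import Mathlib
import Pool.Agent.V11243.NamesNW
import Pool.Agent.V11243.GenericX
import Pool.Agent.V11243.OracleX
import Pool.Agent.V11243.EOp

/-!
# An introenumerable set that is not finitely decomposable

`A = {⟨i, (X ↾ n)[i := 0]⟩ : i < n}` for a sufficiently generic `X : ℕ → ℕ`.
-/

namespace Pool.Agent.Results.MP_7321fb_lc.NotFinitelyDecomposable

open Pool.Agent.V11243.GenericX Pool.Agent.V11243.OracleX Pool.Agent.V11243.EOp

/-- `A ≤ₑ B`: some enumeration operator `Θ` has `Θ(B) = A`. -/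
def LeE (A B : Set ℕ) : Prop := ∃ Θ : EnumOp, app Θ.1 B = A

/-- `A ≤ᵘⁱ_e B`: one enumeration operator `Θ` has `Θ(C) = A` for every infinite `C ⊆ B`. -/
def LeUIE (A B : Set ℕ) : Prop := ∃ Θ : EnumOp, ∀ C ⊆ B, C.Infinite → app Θ.1 C = A

/-- `A` is introenumerable. -/
def Introenumerable (A : Set ℕ) : Prop := A.Infinite ∧ ∀ C ⊆ A, C.Infinite → LeE A C

/-- `A` is a finite union `A₀ ∪ ⋯ ∪ Aₙ` with `A ≤ᵘⁱ_e Aᵢ` for every `i ≤ n`. -/
def FinitelyDecomposable (A : Set ℕ) : Prop :=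
  ∃ n : ℕ, ∃ B : Fin (n + 1) → Set ℕ, A = ⋃ i, B i ∧ ∀ i, LeUIE A (B i)

theorem result : ∃ A : Set ℕ, Introenumerable A ∧ ¬ FinitelyDecomposable A := by
  classical
  obtain ⟨X, hX⟩ := main_thm (fun (Θ : EnumOp) (C : Set ℕ) => app Θ.1 C)
    (fun Θ C e he => cont Θ.1 C e he)
  refine ⟨AX X, ⟨AX_infinite X, fun C hC hinf => AX_e_le hC hinf⟩, ?_⟩
  rintro ⟨n, B, hB, hUI⟩
  choose Φ hΦ using hUI
  obtain ⟨i, -, R, hR, hRinf, -, h⟩ := hX (List.ofFn Φ) 0
  -- some piece meets `R` in an infinite set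
  obtain ⟨j, hj⟩ : ∃ j, (B j ∩ R).Infinite := by
    by_contra hcon
    push Not at hcon
    apply hRinf
    have : R ⊆ ⋃ j, (B j ∩ R) := by
      intro e he
      have h1 := hR he
      rw [hB] at h1
      obtain ⟨j, hj⟩ := Set.mem_iUnion.1 h1
      exact Set.mem_iUnion.2 ⟨j, hj, he⟩
    exact (Set.finite_iUnion hcon).subset this
  have hout : app (Φ j).1 (B j ∩ R) = AX X := hΦ j (B j ∩ R) Set.inter_subset_left hj
  rcases h (Φ j) (List.mem_ofFn.2 ⟨j, rfl⟩) (B j ∩ R) Set.inter_subset_right hj with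
    ⟨y, y', hne, ⟨e, he, hd⟩, ⟨e', he', hd'⟩⟩ | hno
  · rw [hout] at he he'
    exact hne ((dec_of_mem he hd).trans (dec_of_mem he' hd').symm)
  · apply hno
    rw [hout]
    exact ⟨_, ⟨i + 1, i + 2, by omega, rfl⟩, dec_mk X (by omega) (by omega)⟩

end Pool.Agent.Results.MP_7321fb_lc.NotFinitelyDecomposable
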